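import Mathlib
import Pool.Agent.Y103.EM.Prime

/-!
# The containment of Eisenbud and Mazur fails for prime ideals over every field

The starting file `Pool/Agent/S00478.lean` gives a radical ideal (the ideal of a union of 601 curves
in the affine space of dimension 30 over `ℂ`) with `I ^ (2) ⊄ 𝔪 I`. Here `I` is a prime ideal, the
field is arbitrary (of characteristic different from 3, 5 and 601), the local ring is the one of a
rational point of an affine space, and `I ^ (2)` contains as many elements of a minimal generating
set of `I` as one wants.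
-/

set_option autoImplicit false

namespace Pool.Agent.Results.MP_d965d2_ag.PrimeIdeals

open MvPolynomial Pool.Agent.Y103.EM

universe u

/-- The second symbolic power of the ideal `I`: the set of all `x` such that, for each minimal
prime `Q` of `I`, there is `s ∉ Q` with `s * x ∈ I ^ 2`. -/
def symbolicSquare {R : Type*} [CommRing R] (I : Ideal R) : Set R :=
  {x | ∀ Q ∈ I.minimalPrimes, ∃ s, s ∉ Q ∧ s * x ∈ I ^ 2}

/-- **The conjecture of Eisenbud and Mazur fails for prime ideals over every field of characteristic
zero.** Let `K` be any field in which `9015 = 3 * 5 * 601` is not zero (for example any field of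
characteristic zero) and `N ≥ 1`. There are a `K`-rational point of the affine space of dimension
`31 N`, with local ring `R` (the localization of the polynomial ring at the kernel `p` of the
evaluation at the point), a prime ideal `I` of `R` and elements `f 1, …, f N` of `I ^ (2)` which are
a part of a minimal generating set of `I`: no nontrivial combination of them, with coefficients
not all in the maximal ideal `𝔪`, is in `𝔪 I`. In particular `I ^ (2) ⊄ 𝔪 I`. -/
theorem result (K : Type u) [Field K] (hK : (9015 : K) ≠ 0) (N : ℕ) (hN : 1 ≤ N) :
    ∃ (q : Fin N × Option (Fin 30) → K)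
      (p : Ideal (MvPolynomial (Fin N × Option (Fin 30)) K)) (_ : p.IsPrime)
      (I : Ideal (Localization.AtPrime p)) (f : Fin N → Localization.AtPrime p),
      p = RingHom.ker (MvPolynomial.aeval q : MvPolynomial (Fin N × Option (Fin 30)) K →ₐ[K] K) ∧
      I.IsPrime ∧ (∀ j, f j ∈ I ∧ f j ∈ symbolicSquare I) ∧
      (∀ a : Fin N → Localization.AtPrime p,
        ∑ j, a j * f j ∈ IsLocalRing.maximalIdeal (Localization.AtPrime p) * I →
        ∀ j, a j ∈ IsLocalRing.maximalIdeal (Localization.AtPrime p)) ∧
      ¬ symbolicSquare I ⊆ IsLocalRing.maximalIdeal (Localization.AtPrime p) * I := by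
  have h15 : (15 : K) ≠ 0 := by
    intro h
    apply hK
    have : (9015 : K) = 15 * 601 := by norm_num
    rw [this, h, zero_mul]
  have h601 : (601 : K) ≠ 0 := by
    intro h
    apply hK
    have : (9015 : K) = 15 * 601 := by norm_num
    rw [this, h, mul_zero]
  have hqp : (RingHom.ker (ptN K N)).IsPrime := RingHom.ker_isPrime _
  obtain ⟨I, f, hI, hf, hs, ha⟩ := main_prime (K := K) (N := N) h15 h601
    (Localization.AtPrime (RingHom.ker (ptN K N)))
  have hmin : I.minimalPrimes = {I} := Ideal.minimalPrimes_eq_subsingleton_self
  have hsym : ∀ j, f j ∈ symbolicSquare I := by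
    intro j Q hQ
    rw [hmin, Set.mem_singleton_iff] at hQ
    subst hQ
    exact hs j
  refine ⟨fun p => ptv K p.2, RingHom.ker (ptN K N), hqp, I, f, rfl, hI,
    fun j => ⟨hf j, hsym j⟩, ha, ?_⟩
  intro hsub
  have j0 : Fin N := ⟨0, hN⟩
  have h1 := ha (fun j => if j = j0 then 1 else 0) (by
    have h2 : ∑ j, (if j = j0 then (1 : Localization.AtPrime (RingHom.ker (ptN K N))) else 0) * f j =
        f j0 := by
      simp
    rw [h2]
    exact hsub (hsym j0)) j0
  rw [if_pos rfl, IsLocalRing.mem_maximalIdeal] at h1
  exact h1 isUnit_one

end Pool.Agent.Results.MP_d965d2_ag.PrimeIdeals
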